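import Pool.Agent.Work.MP_653b6e_gt.Main

open Pool.Agent.Work.MP_653b6e_gt

/-- For every finite simple graph `G`, the mod 2 homological connectivity of the box complex
`B₀(G)` plus one is at most its coindex. -/
theorem Pool.Agent.Results.MP_653b6e_gt.ConnLeCoind.result {V : Type} [Fintype V]
    (G : SimpleGraph V) : connZ2 (boxSpace G) + 1 ≤ coind (boxSpace G) (boxSwap G) :=
  main G
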