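import Pool.Agent.Work.MP_653b6e_gt.Hedge.Main

open Pool.Agent.Work.MP_653b6e_gt Pool.Agent.Work.MP_653b6e_gt.Hedge

/-- There is a path connected, locally compact Hausdorff space with a free involution whose
suspension has coindex smaller than its mod 2 homological connectivity plus one. -/
theorem Pool.Agent.Results.MP_653b6e_gt.SuspensionGap.result :
    ∃ (X : TopCat.{0}) (τ : X → X), T2Space X ∧ LocallyCompactSpace X ∧ PathConnectedSpace X ∧
      Continuous τ ∧ (∀ x, τ (τ x) = x) ∧ (∀ x, τ x ≠ x) ∧
      coind (susp X) (suspSwap τ) < connZ2 (susp X) + 1 :=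
  ⟨dblTel, telSwap, t2_TT, locallyCompact_TT, pathConnected_TT, continuous_telSwap,
    telSwap_telSwap, telSwap_ne, coind_lt⟩
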